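import Pool.Agent.Lib.MP_31db24_co.Assembly
import Pool.Agent.Lib.MP_31db24_co.Nt
import Pool.Agent.Lib.MP_31db24_co.Analytic

/-!
# MP_31db24_co: monochromatic shifted patterns in finite colourings of the positive integers

The answer to Q1 in the words of the problem file: colourings of the positive integers by any finite set of
colours, the listing given by a strictly increasing sequence of positive integers, all elements of the
shifted pattern are positive integers of one colour.
-/

set_option autoImplicit false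

namespace Pool.Agent.Results.MP_31db24_co.ShiftedPattern

open Pool.Agent.MP31db24

theorem result {κ : Type*} [Finite κ] (c : ℕ+ → κ) :
    ∃ (b : ℕ → ℕ+) (t : ℤ), StrictMono b ∧ ∃ k : κ,
      (∀ i : ℕ, ∃ n : ℕ+, ((n : ℕ) : ℤ) = ((b i : ℕ) : ℤ) + t ∧ c n = k) ∧
      ∀ i j : ℕ, i < j →
        ∃ n : ℕ+, ((n : ℕ) : ℤ) = ((b i : ℕ) : ℤ) ^ 2 + ((b j : ℕ) : ℤ) + t ∧ c n = k := by
  classical
  obtain ⟨r, ⟨e⟩⟩ := Finite.exists_equiv_fin κ
  obtain ⟨b, t, k, hb, hbt, hb0, h1, h2⟩ := main_of (analytic_core return_zero) return_zero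
    nt_zero nt_core (fun i : ℤ => if h : 0 < i.toNat then e (c ⟨i.toNat, h⟩) else e (c 1))
  have hbpos : ∀ i, 0 < b i := fun i => lt_of_lt_of_le hb0 (hb.monotone (Nat.zero_le i))
  have hcast : ∀ x : ℤ, 0 < x → (x.toNat : ℤ) = x := fun x hx => Int.toNat_of_nonneg hx.le
  have hpos : ∀ x : ℤ, 0 < x → 0 < x.toNat := fun x hx => by
    have := hcast x hx
    omega
  refine ⟨fun i => ⟨(b i).toNat, hpos _ (hbpos i)⟩, t, ?_, e.symm k, ?_, ?_⟩
  · intro i j hij
    have h3 := hb hij
    have h4 := hcast _ (hbpos i)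
    have h5 := hcast _ (hbpos j)
    change (b i).toNat < (b j).toNat
    omega
  · intro i
    refine ⟨⟨(b i + t).toNat, hpos _ (hbt i)⟩, ?_, ?_⟩
    · change ((b i + t).toNat : ℤ) = ((b i).toNat : ℤ) + t
      rw [hcast _ (hbt i), hcast _ (hbpos i)]
    · have h3 := h1 i
      beta_reduce at h3
      rw [dif_pos (hpos _ (hbt i))] at h3
      rw [← h3, Equiv.symm_apply_apply]
  · intro i j hij
    have h0 : 0 < b i ^ 2 + b j + t := by
      have := hbt j
      have := sq_nonneg (b i)
      linarith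
    refine ⟨⟨(b i ^ 2 + b j + t).toNat, hpos _ h0⟩, ?_, ?_⟩
    · change ((b i ^ 2 + b j + t).toNat : ℤ) = ((b i).toNat : ℤ) ^ 2 + ((b j).toNat : ℤ) + t
      rw [hcast _ h0, hcast _ (hbpos i), hcast _ (hbpos j)]
    · have h3 := h2 i j hij
      beta_reduce at h3
      rw [dif_pos (hpos _ h0)] at h3
      rw [← h3, Equiv.symm_apply_apply]

end Pool.Agent.Results.MP_31db24_co.ShiftedPattern
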